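import Pool.Agent.N400.K17.GU
import Pool.Agent.N875.K15.Stm

/-!
# Project K15 (helper875): K15-GU, sufficient condition at the places of good reduction (helper966)
-/

set_option autoImplicit false

namespace Pool.Agent.N966.K15

open NumberField IsDedekindDomain
open Pool.Agent.N763.QB (io all_units isq_mul)
open Pool.Agent.N400.K17 (int_notMem io_int repr_unit)

/-- **K15-GU** -/
theorem t_GU : Pool.Agent.N875.K15.S_GU := by
  intro m hm hm1 K _ _ r hQ p hp hpn w hw a b ha hb had hbd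
  have hpz := Nat.prime_iff_prime_int.1 hp
  have h2' : ¬ (p : ℤ) ∣ 2 := by
    intro h
    exact hpn ((Int.natCast_dvd_natCast.1 h).trans ⟨15, by norm_num⟩)
  have h3' : ¬ (p : ℤ) ∣ 3 := by
    intro h
    exact hpn ((Int.natCast_dvd_natCast.1 h).trans ⟨10, by norm_num⟩)
  have h5' : ¬ (p : ℤ) ∣ 5 := by
    intro h
    exact hpn ((Int.natCast_dvd_natCast.1 h).trans ⟨6, by norm_num⟩)
  have h2 : (2 : 𝓞 K) ∉ w.asIdeal := by
    have := int_notMem hp hw h2'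
    exact_mod_cast this
  obtain ⟨u, hu, ρ, hρ, e1⟩ := repr_unit (w := w) hp hm hQ.hr ha had
  obtain ⟨v, hv, σ, hσ, e2⟩ := repr_unit (w := w) hp hm hQ.hr hb hbd
  have hmul : ∀ {x y : ℤ}, ¬ (p : ℤ) ∣ x → ¬ (p : ℤ) ∣ y → ¬ (p : ℤ) ∣ x * y := by
    intro x y hx hy h
    rcases hpz.dvd_or_dvd h with h | h
    · exact hx h
    · exact hy h
  have d1 : ¬ (p : ℤ) ∣ (0 : ℤ) - (-9) := by
    have e : (0 : ℤ) - (-9) = 3 * 3 := by ring
    rw [e]
    exact hmul h3' h3'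
  have d2 : ¬ (p : ℤ) ∣ (0 : ℤ) - 16 := by
    have e : (0 : ℤ) - 16 = -((2 * 2) * (2 * 2)) := by ring
    rw [e, dvd_neg]
    exact hmul (hmul h2' h2') (hmul h2' h2')
  have d3 : ¬ (p : ℤ) ∣ (-9 : ℤ) - 16 := by
    have e : (-9 : ℤ) - 16 = -(5 * 5) := by ring
    rw [e, dvd_neg]
    exact hmul h5' h5'
  have m1 := int_notMem hp hw d1
  have m2 := int_notMem hp hw d2
  have m3 := int_notMem hp hw d3
  rw [Int.cast_sub] at m1 m2 m3
  obtain ⟨x, y, hy0, he, q1, q2⟩ := all_units h2 m1 m2 m3 (int_notMem hp hw hu)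
    (int_notMem hp hw hv)
  rw [io_int, io_int] at q1 q2
  rw [io_int, io_int, io_int] at he
  refine ⟨x, y, hy0, he, ?_, ?_⟩
  · rw [e1, ← mul_assoc]
    exact isq_mul q1 ⟨ρ, sq ρ⟩
  · rw [e2, ← mul_assoc]
    exact isq_mul q2 ⟨σ, sq σ⟩

end Pool.Agent.N966.K15

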