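import Pool.Agent.N875.K15.Stm
import Pool.Agent.N391.K17.N17

/-!
# Project K15 (helper875), part 3N (helper966): the necessary condition at the places over `3`
-/

set_option autoImplicit false

open NumberField IsDedekindDomain WithZero

namespace Pool.Agent.N966.K15

open Pool.Agent.N875.K17 (Qd)
open Pool.Agent.N875.K15 (LoE C3)
open Pool.Agent.N49.QB (VV)
open Pool.Agent.N391.K17 (isq_div vv_sqf sq_res)

section
variable {L : Type} [Field L] (V : Valuation L ℤᵐ⁰)

/-- the product of the coordinates `x` and `x + 9` up to sign -/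
theorem pt_prod (h3 : V (3 : L) < 1) (h16 : V (16 : L) = 1)
    (hh : ∀ z : L, V (z - 1) < 1 → IsSquare z) {x y : L} (hy : y ≠ 0)
    (he : y ^ 2 = x * ((x + 9) * (x - 16))) :
    (1 ≤ V x ∧ IsSquare (1 + 9 / x)) ∨ (V x < 1 ∧ IsSquare (-(x * (x + 9)))) := by
  have h160 : (16 : L) ≠ 0 := fun h => by
    rw [h, map_zero] at h16
    exact zero_ne_one h16
  have hy2 : y ^ 2 ≠ 0 := pow_ne_zero 2 hy
  have hx : x ≠ 0 := by rintro rfl; rw [he] at hy2; simp at hy2
  have h9 : V (9 : L) < 1 := by
    have e : (9 : L) = 3 * 3 := by norm_num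
    rw [e, map_mul]
    exact mul_lt_one_of_lt_of_le h3 h3.le
  have hvx : V x ≠ 0 := (V.ne_zero_iff).2 hx
  rcases lt_or_ge (V x) 1 with h | h
  · right
    refine ⟨h, ?_⟩
    have a2 : IsSquare (1 - x / 16) := hh _ (by
      have e : 1 - x / 16 - 1 = -(x / 16) := by ring
      rw [e, Valuation.map_neg, map_div₀, h16, div_one]
      exact h)
    have a3 : IsSquare (16 : L) := ⟨4, by norm_num⟩
    have a4 := a3.mul a2
    have hne : (16 : L) * (1 - x / 16) ≠ 0 := by
      intro h0
      have e : x - 16 = -(16 * (1 - x / 16)) := by field_simp; ring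
      rw [he, e, h0] at hy2
      simp at hy2
    refine isq_div (y := 16 * (1 - x / 16)) (z := y) hne ?_ a4
    rw [he]
    field_simp
    ring
  · left
    refine ⟨h, hh _ ?_⟩
    rw [add_sub_cancel_left, map_div₀]
    exact (div_lt_one₀ (zero_lt_iff.2 hvx)).2 (h9.trans_le h)

theorem pt_sum (h3 : V (3 : L) < 1) {x : L} (h : 1 ≤ V x) : V (x + 9) = V x := by
  have h9 : V (9 : L) < 1 := by
    have e : (9 : L) = 3 * 3 := by norm_num
    rw [e, map_mul]
    exact mul_lt_one_of_lt_of_le h3 h3.le
  exact V.map_add_eq_of_lt_left (h9.trans_le h)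

/-- the valuations of `x` and `x + 9` are even if `-1` is not a square -/
theorem pt_even (h3 : V (3 : L) < 1) (h30 : (3 : L) ≠ 0) (h16 : V (16 : L) = 1)
    (hh : ∀ z : L, V (z - 1) < 1 → IsSquare z) (hm1 : ¬ IsSquare (-1 : L)) {x y : L} (hy : y ≠ 0)
    (he : y ^ 2 = x * ((x + 9) * (x - 16))) : IsSquare (V x) ∧ IsSquare (V (x + 9)) := by
  have hy2 : y ^ 2 ≠ 0 := pow_ne_zero 2 hy
  have hx : x ≠ 0 := by rintro rfl; rw [he] at hy2; simp at hy2
  have hx9 : x + 9 ≠ 0 := by
    intro h
    rw [he, h] at hy2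
    simp at hy2
  have hvx : V x ≠ 0 := (V.ne_zero_iff).2 hx
  have hmap : ∀ z : L, IsSquare z → IsSquare (V z) := by
    rintro z ⟨t, rfl⟩
    exact ⟨V t, by rw [map_mul]⟩
  rcases pt_prod V h3 h16 hh hy he with ⟨h, hs⟩ | ⟨h, hs⟩
  · have e9 := pt_sum V h3 h
    rw [e9]
    suffices hsx : IsSquare (V x) from ⟨hsx, hsx⟩
    rcases h.eq_or_lt with h1 | h1
    · exact ⟨1, by rw [← h1, mul_one]⟩
    · -- `x` is a square
      apply hmap
      have a2 : IsSquare (1 - 16 / x) := hh _ (by
        have e : 1 - 16 / x - 1 = -(16 / x) := by ring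
        rw [e, Valuation.map_neg, map_div₀, h16]
        exact (div_lt_one₀ (zero_lt_iff.2 hvx)).2 h1)
      have hp : (x + 9) * (x - 16) ≠ 0 := by intro h; rw [he, h] at hy2; simp at hy2
      refine isq_div hp he ?_
      have e : (x + 9) * (x - 16) = x * x * ((1 + 9 / x) * (1 - 16 / x)) := by
        field_simp
      rw [e]
      exact (IsSquare.mul_self x).mul (hs.mul a2)
  · obtain ⟨s, hs'⟩ : ∃ s : L, x = 9 * s := ⟨x / 9, by
      have h90 : (9 : L) ≠ 0 := by
        have e : (9 : L) = 3 * 3 := by norm_num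
        rw [e]
        exact mul_ne_zero h30 h30
      field_simp⟩
    have h90 : (9 : L) ≠ 0 := by
      have e : (9 : L) = 3 * 3 := by norm_num
      rw [e]
      exact mul_ne_zero h30 h30
    have hs0 : s ≠ 0 := by
      rintro rfl
      rw [mul_zero] at hs'
      exact hx hs'
    have hs1 : s + 1 ≠ 0 := by
      intro h0
      apply hx9
      rw [hs']
      linear_combination 9 * h0
    have hvs : V s ≠ 0 := (V.ne_zero_iff).2 hs0
    have h9s : IsSquare (V (9 : L)) := hmap _ ⟨3, by norm_num⟩
    have k1 : IsSquare (-(s * (s + 1))) := by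
      obtain ⟨t, ht⟩ := hs
      refine ⟨t / 9, ?_⟩
      rw [div_mul_div_comm, ← ht, hs']
      field_simp
    suffices hk : IsSquare (V s) ∧ IsSquare (V (s + 1)) by
      have e1 : V x = V 9 * V s := by rw [hs', map_mul]
      have e2 : V (x + 9) = V 9 * V (s + 1) := by
        rw [← map_mul]
        congr 1
        rw [hs']
        ring
      rw [e1, e2]
      exact ⟨h9s.mul hk.1, h9s.mul hk.2⟩
    rcases lt_trichotomy (V s) 1 with h1 | h1 | h1
    · have b1 : IsSquare (s + 1) := hh _ (by rw [add_sub_cancel_right]; exact h1)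
      obtain ⟨z, hz⟩ := k1
      have b2 : IsSquare (-s) := isq_div (y := s + 1) (z := z) hs1 (by rw [sq, ← hz]; ring) b1
      have b3 := hmap _ b2
      rw [Valuation.map_neg] at b3
      exact ⟨b3, hmap _ b1⟩
    · have c1 : IsSquare (V s) := ⟨1, by rw [h1, mul_one]⟩
      refine ⟨c1, ?_⟩
      have c2 : V (s + 1) ≤ 1 := V.map_add_le h1.le (by rw [map_one])
      rcases c2.lt_or_eq with c3 | c3
      · have b1 : IsSquare (-s) := hh _ (by
          have e : -s - 1 = -(s + 1) := by ring
          rw [e, Valuation.map_neg]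
          exact c3)
        obtain ⟨z, hz⟩ := k1
        exact hmap _ (isq_div (y := -s) (z := z) (neg_ne_zero.2 hs0)
          (by rw [sq, ← hz]; ring) b1)
      · exact ⟨1, by rw [c3, mul_one]⟩
    · exfalso
      apply hm1
      have b1 : IsSquare (1 + 1 / s) := hh _ (by
        rw [add_sub_cancel_left, map_div₀, map_one]
        exact (div_lt_one₀ (zero_lt_iff.2 hvs)).2 h1)
      have b2 : IsSquare (s * s * (1 + 1 / s)) := (IsSquare.mul_self s).mul b1
      have b0 : s * s * (1 + 1 / s) ≠ 0 := by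
        have e : s * s * (1 + 1 / s) = s * (s + 1) := by field_simp
        rw [e]
        exact mul_ne_zero hs0 hs1
      obtain ⟨z, hz⟩ := k1
      refine isq_div (y := s * s * (1 + 1 / s)) (z := z) b0 ?_ b2
      rw [sq, ← hz]
      field_simp

/-- the product of `x` and `x + 9` is a square if `-1` is a square -/
theorem pt_mul (h3 : V (3 : L) < 1) (h16 : V (16 : L) = 1)
    (hh : ∀ z : L, V (z - 1) < 1 → IsSquare z) (hm1 : IsSquare (-1 : L)) {x y : L} (hy : y ≠ 0)
    (he : y ^ 2 = x * ((x + 9) * (x - 16))) : IsSquare (x * (x + 9)) := by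
  have hy2 : y ^ 2 ≠ 0 := pow_ne_zero 2 hy
  have hx : x ≠ 0 := by rintro rfl; rw [he] at hy2; simp at hy2
  rcases pt_prod V h3 h16 hh hy he with ⟨h, hs⟩ | ⟨h, hs⟩
  · have e : x * (x + 9) = x * x * (1 + 9 / x) := by field_simp
    rw [e]
    exact (IsSquare.mul_self x).mul hs
  · have e : x * (x + 9) = -1 * -(x * (x + 9)) := by ring
    rw [e]
    exact hm1.mul hs

end

theorem t_3N : Pool.Agent.N875.K15.S_3N := by
  intro m hm hm1 K _ _ r hq w hw a b ha hb hL
  have hp : Nat.Prime 3 := by norm_num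
  have hpZ : Prime (3 : ℤ) := by exact_mod_cast Nat.prime_iff_prime_int.1 hp
  have hw' : ((3 : ℕ) : 𝓞 K) ∈ w.asIdeal := by exact_mod_cast hw
  obtain ⟨x, y, hy0, he, hsa, hsb⟩ := hL
  have he' : y ^ 2 = x * ((x + 9) * (x - 16)) := by
    rw [he]
    push_cast
    ring
  have hsa' : IsSquare (x * (a : w.adicCompletion K)) := by
    have e : x * (a : w.adicCompletion K) = (x - ((0 : ℤ) : w.adicCompletion K)) * a := by
      push_cast
      ring
    rw [e]
    exact hsa
  have hsb' : IsSquare ((x + 9) * (b : w.adicCompletion K)) := by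
    have e : (x + 9) * (b : w.adicCompletion K) = (x - ((-9 : ℤ) : w.adicCompletion K)) * b := by
      push_cast
      ring
    rw [e]
    exact hsb
  have h3 : VV w (3 : w.adicCompletion K) < 1 := by
    have := Pool.Agent.N49.QB.vv_emb w _ hw
    rwa [map_ofNat] at this
  have h16 : VV w (16 : w.adicCompletion K) = 1 := by
    have := Pool.Agent.N49.QB.vv_one hp w hw' 16 (by norm_num)
    exact_mod_cast this
  have hh : ∀ z : w.adicCompletion K, VV w (z - 1) < 1 → IsSquare z :=
    fun z hz => Pool.Agent.N49.QB.hensel hp (by norm_num) w hw' z hz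
  have h30 : (3 : w.adicCompletion K) ≠ 0 := by
    have h3 : ((3 : ℕ) : w.adicCompletion K) ≠ 0 := by
      have : CharZero (w.adicCompletion K) :=
        charZero_of_injective_algebraMap (algebraMap K (w.adicCompletion K)).injective
      exact Nat.cast_ne_zero.2 (by norm_num)
    exact_mod_cast h3
  have hy2 : y ^ 2 ≠ 0 := pow_ne_zero 2 hy0
  have hx0 : x ≠ 0 := by rintro rfl; rw [he'] at hy2; simp at hy2
  have hx9 : x + 9 ≠ 0 := by
    intro h
    rw [he', h] at hy2
    simp at hy2
  have hun : ¬ (3 : ℤ) ∣ m → ∀ c : ℤ, Squarefree c → (3 : ℤ) ∣ c →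
      VV w (c : w.adicCompletion K) = exp (-1 : ℤ) := by
    intro h c hc h'
    refine vv_sqf hq hp ?_ w hw' c hc (by exact_mod_cast h')
    intro h1
    rcases hpZ.dvd_or_dvd (by exact_mod_cast h1) with h2 | h2
    · norm_num at h2
    · exact h h2
  have hun1 : ∀ c : ℤ, ¬ (3 : ℤ) ∣ c → VV w (c : w.adicCompletion K) = 1 := fun c hc =>
    Pool.Agent.N49.QB.vv_one hp w hw' c (by exact_mod_cast hc)
  -- parity
  have hpar : ∀ (z : w.adicCompletion K) (c : ℤ), z ≠ 0 → IsSquare (VV w z) →
      IsSquare (z * (c : w.adicCompletion K)) → IsSquare (VV w (c : w.adicCompletion K)) := by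
    rintro z c hz ⟨s, hs⟩ ⟨t, ht⟩
    have hvz : VV w z ≠ 0 := ((VV w).ne_zero_iff).2 hz
    have hs0 : s ≠ 0 := by
      rintro rfl
      rw [mul_zero] at hs
      exact hvz hs
    refine ⟨VV w t / s, ?_⟩
    have h1 := congrArg (VV w) ht
    rw [map_mul, map_mul] at h1
    rw [div_mul_div_comm, ← hs, ← h1, mul_comm, mul_div_assoc, div_self hvz, mul_one]
  refine ⟨fun h => ?_, fun h => ?_⟩
  · have hm3 : ¬ (3 : ℤ) ∣ m := by omega
    have hn1 : ¬ IsSquare (-1 : w.adicCompletion K) := by
      intro hs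
      have hs' : IsSquare (((-1 : ℤ)) : w.adicCompletion K) := by
        push_cast
        exact hs
      obtain ⟨k, hk⟩ := sq_res hq hm hm1 hp (by norm_num) w hw' 1
        (by push_cast; omega) (-1) hs'
      have h4 : ∀ z : ZMod 3, z ^ 2 + 1 ≠ 0 := by decide
      apply h4 (k : ZMod 3)
      have h5 := (ZMod.intCast_zmod_eq_zero_iff_dvd (k ^ 2 - -1) 3).2 hk
      push_cast at h5
      linear_combination h5
    obtain ⟨e1, e2⟩ := pt_even (VV w) h3 h30 h16 hh hn1 hy0 he'
    refine ⟨fun h' => ?_, fun h' => ?_⟩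
    · have k1 := hpar x a hx0 e1 hsa'
      rw [hun hm3 a ha h'] at k1
      exact Pool.Agent.N49.QB.not_isq k1
    · have k1 := hpar (x + 9) b hx9 e2 hsb'
      rw [hun hm3 b hb h'] at k1
      exact Pool.Agent.N49.QB.not_isq k1
  · have hm3 : ¬ (3 : ℤ) ∣ m := by omega
    have hn1 : IsSquare (-1 : w.adicCompletion K) := by
      have k1 : IsSquare (((-m : ℤ)) : w.adicCompletion K) := by
        apply hh
        have h5 : (3 : ℤ) ∣ -m - 1 := by omega
        obtain ⟨c, hc⟩ := h5
        have e : (((-m : ℤ)) : w.adicCompletion K) - 1 = 3 * (c : w.adicCompletion K) := by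
          have := congrArg (fun z : ℤ => (z : w.adicCompletion K)) hc
          push_cast at this ⊢
          exact this
        rw [e, map_mul]
        exact mul_lt_one_of_lt_of_le h3 (Pool.Agent.N49.QB.vv_le_one w c)
      have k2 : IsSquare ((m : ℤ) : w.adicCompletion K) := by
        refine ⟨algebraMap K (w.adicCompletion K) r, ?_⟩
        rw [← map_mul, ← sq, hq.hr, map_intCast]
      have hm0 : ((m : ℤ) : w.adicCompletion K) ≠ 0 := by
        have : CharZero (w.adicCompletion K) :=
          charZero_of_injective_algebraMap (algebraMap K (w.adicCompletion K)).injective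
        have : m ≠ 0 := by omega
        exact_mod_cast this
      obtain ⟨t, ht⟩ := k1
      refine isq_div (y := ((m : ℤ) : w.adicCompletion K)) (z := t) hm0 ?_ k2
      rw [sq, ← ht]
      push_cast
      ring
    obtain ⟨z, hz⟩ := pt_mul (VV w) h3 h16 hh hn1 hy0 he'
    have hab : IsSquare (VV w (((a * b : ℤ)) : w.adicCompletion K)) := by
      refine hpar (x * (x + 9)) (a * b) (mul_ne_zero hx0 hx9) ⟨VV w z, by rw [hz, map_mul]⟩ ?_
      have := hsa'.mul hsb'
      have e : x * (x + 9) * (((a * b : ℤ)) : w.adicCompletion K) =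
          x * (a : w.adicCompletion K) * ((x + 9) * (b : w.adicCompletion K)) := by
        push_cast
        ring
      rw [e]
      exact this
    rw [Int.cast_mul, map_mul] at hab
    constructor
    · intro h'
      by_contra hcon
      rw [hun hm3 a ha h', hun1 b hcon, mul_one] at hab
      exact Pool.Agent.N49.QB.not_isq hab
    · intro h'
      by_contra hcon
      rw [hun hm3 b hb h', hun1 a hcon, one_mul] at hab
      exact Pool.Agent.N49.QB.not_isq hab

end Pool.Agent.N966.K15

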